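import Pool.Agent.helper32.TRI.Spec

/-!
# Project TRI (MP_561ff4_al), row Z42 (adapted from row Z72 of project EXT by helper90)
-/

set_option autoImplicit false

open Finset

namespace Pool.Agent.TRI

open Pool.Agent.EXC

theorem Z42_pack {X : Type} [Group X] (P : X → Prop) (y0 y1 y2 : X) (h0 : P y0) (h1 : P y1) (h2 : P y2)
    (h : ∀ N : ℕ, (y0 * y1 * y2⁻¹) ^ N = 1 → 7 ∣ N) :
    ∃ y : Fin 3 → X, (∀ i, P (y i)) ∧ ∀ N : ℕ, (y 0 * y 1 * (y 2)⁻¹) ^ N = 1 → 7 ∣ N := by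
  refine ⟨![y0, y1, y2], ?_, h⟩
  intro i
  fin_cases i
  · exact h0
  · exact h1
  · exact h2

theorem Z42_h1 {X : Type} [Group X] (t0 t1 t2 a a' d : X) (h : t2 * a = a')
    (hz : ∀ N : ℕ, (t0 * t1 * t2) ^ N = 1 → 7 ∣ N) (N : ℕ)
    (hN : (t0 * t1 * (a' * d) * (a * d)⁻¹) ^ N = 1) : 7 ∣ N := by
  have e : t0 * t1 * (a' * d) * (a * d)⁻¹ = t0 * t1 * t2 := by
    subst h
    group
  rw [e] at hN
  exact hz N hN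

theorem Z42_h2 {X : Type} [Group X] (t0 t1 t2 b S R : X) (h : S * R = t0)
    (hz : ∀ N : ℕ, (t0 * t1 * t2) ^ N = 1 → 7 ∣ N) (N : ℕ)
    (hN : (R * t1 * (t2 * b) * (S⁻¹ * b)⁻¹) ^ N = 1) : 7 ∣ N := by
  have e : R * t1 * (t2 * b) * (S⁻¹ * b)⁻¹ = S⁻¹ * (t0 * t1 * t2) * S⁻¹⁻¹ := by
    subst h
    group
  rw [e, conj_pow] at hN
  have e3 := (mul_inv_eq_one.1 hN)
  exact hz N (mul_eq_left.1 e3)

section
variable {K : Type} [Field K]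

theorem Z42_fm_smul_left (c : K) (x y : Lm C4 K) : fm C4 (c • x) y = c * fm C4 x y := by
  simp only [fm, Prod.smul_fst, Prod.smul_snd, Pi.smul_apply, smul_eq_mul, mul_add, Finset.mul_sum,
    mul_neg]
  congr 1
  · congr 1
    exact Finset.sum_congr rfl fun i _ => Finset.sum_congr rfl fun j _ => by ring
  · exact Finset.sum_congr rfl fun i _ => by ring

theorem Z42_xe_zero (a v : Lm C4 K) : xe C4 a 0 v = v := by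
  unfold xe
  simp

theorem Z42_uniq {a : Lm C4 K} {t : K} {f f' : EG C4 K}
    (h : IsX C4 a t (f : Lm C4 K ≃ₗ[K] Lm C4 K)) (h' : IsX C4 a t (f' : Lm C4 K ≃ₗ[K] Lm C4 K)) : f = f' := by
  apply Subtype.ext
  apply LinearEquiv.ext
  intro v
  rw [h v, h' v]

theorem Z42_one {a : Lm C4 K} {f : EG C4 K}
    (h : IsX C4 a 0 (f : Lm C4 K ≃ₗ[K] Lm C4 K)) : f = 1 := by
  apply Subtype.ext
  apply LinearEquiv.ext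
  intro v
  rw [h v, Z42_xe_zero]
  rfl

end

theorem Z42 (hTE4 : TE4_stmt) (hCV4 : CV4_stmt) (hOR4 : OR4_stmt) (hWA4 : WA4_stmt) (hBX4 : BX4_stmt) : Z42_stmt := by
  intro K _ σ hσ0
  have hTE := hTE4 K
  obtain ⟨cv1, cv2⟩ := hCV4 K
  have hEX := (g4_EXF K).2.2.1
  have hC : ∀ i, Ex C4 (c4 K i) := fun i => (hTE i).1
  -- scalars, inverses
  have hsc : ∀ (a : Lm C4 K) (c : K) (f : EG C4 K), Ex C4 a → IsX C4 a c (f : Lm C4 K ≃ₗ[K] Lm C4 K) →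
      IsX C4 (c • a) 1 (f : Lm C4 K ≃ₗ[K] Lm C4 K) := by
    intro a c f ha hf v
    have hX : Xtr C4 a := (hEX a ha).1
    rw [hf v, ((f_XAU 4 C4 K a hX).2.2.2 c).2 1 v, mul_one]
  have hxs : ∀ (a : Lm C4 K) (c : K), Ex C4 a → ∃ f : EG C4 K, IsX C4 a c (f : Lm C4 K ≃ₗ[K] Lm C4 K) := by
    intro a c ha
    obtain ⟨f, hf, hf2⟩ := (hEX a ha).2.2.2.2.1 c
    exact ⟨⟨f, hf⟩, hf2⟩
  have hadd : ∀ (a : Lm C4 K) (s t : K) (f f' : EG C4 K), Ex C4 a → IsX C4 a s (f : Lm C4 K ≃ₗ[K] Lm C4 K) →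
      IsX C4 a t (f' : Lm C4 K ≃ₗ[K] Lm C4 K) → IsX C4 a (s + t) ((f * f' : EG C4 K) : Lm C4 K ≃ₗ[K] Lm C4 K) := by
    intro a s t f f' ha h h'
    exact (hEX a ha).2.2.2.2.2.2.2.2 s t f f' h h'
  have hinv : ∀ (a : Lm C4 K) (c : K) (f : EG C4 K), Ex C4 a → IsX C4 a c (f : Lm C4 K ≃ₗ[K] Lm C4 K) →
      IsX C4 a (-c) ((f⁻¹ : EG C4 K) : Lm C4 K ≃ₗ[K] Lm C4 K) := by
    intro a c f ha hf
    obtain ⟨f', hf'⟩ := hxs a (-c) ha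
    have h1 := hadd a c (-c) f f' ha hf hf'
    rw [add_neg_cancel] at h1
    have h2 : f' = f⁻¹ := eq_inv_of_mul_eq_one_right (Z42_one h1)
    rw [← h2]
    exact hf'
  have hsm : ∀ (a : Lm C4 K) (c : K), Ex C4 a → c ≠ 0 → Ex C4 (c • a) :=
    fun a c ha hc0 => (hEX a ha).2.2.2.1 c hc0
  -- the three root elements
  obtain ⟨T0, hT0⟩ := hxs (c4 K 0) 1 (hC 0)
  obtain ⟨T1, hT1⟩ := hxs (c4 K 1) 1 (hC 1)
  obtain ⟨T2, hT2⟩ := hxs (c4 K 2) 1 (hC 2)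
  have hgw : gw4 0 (1 : K) zt4 = gw4 0 (1 : K) (tw4 0) * gw4 0 (1 : K) (tw4 1) * gw4 0 (1 : K) (tw4 2) := by
    unfold zt4
    rw [(hWA4 K 0 1 one_ne_zero _ (tw4 2)).2.2.1, (hWA4 K 0 1 one_ne_zero _ (tw4 1)).2.2.1]
  have hzN : ∀ N : ℕ, (T0 * T1 * T2) ^ N = 1 → 7 ∣ N := by
    intro N hN
    refine hOR4 K 0 1 one_ne_zero 7 zt4 (by norm_num) zt4_7.1 zt4_7.2 N ?_
    have e : gw4 0 (1 : K) zt4 = ((T0 * T1 * T2 : EG C4 K) : Lm C4 K ≃ₗ[K] Lm C4 K) := by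
      rw [hgw]
      apply LinearEquiv.ext
      intro v
      have e1 : (gw4 0 (1 : K) (tw4 0) * gw4 0 (1 : K) (tw4 1) * gw4 0 (1 : K) (tw4 2)) v =
          gw4 0 (1 : K) (tw4 0) (gw4 0 (1 : K) (tw4 1) (gw4 0 (1 : K) (tw4 2) v)) := rfl
      have e2 : ((T0 * T1 * T2 : EG C4 K) : Lm C4 K ≃ₗ[K] Lm C4 K) v =
          (T0 : Lm C4 K ≃ₗ[K] Lm C4 K) ((T1 : Lm C4 K ≃ₗ[K] Lm C4 K) ((T2 : Lm C4 K ≃ₗ[K] Lm C4 K) v)) := rfl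
      rw [e1, e2, hT0, hT1, hT2, (hTE 2).2, (hTE 1).2, (hTE 0).2]
    rw [e]
    have h1 := congrArg (Subtype.val) hN
    exact h1
  have hY : ∀ (a b : Lm C4 K) (f g : EG C4 K), Ex C4 a → Ex C4 b → fm C4 a b = σ →
      IsX C4 a 1 (f : Lm C4 K ≃ₗ[K] Lm C4 K) → IsX C4 b 1 (g : Lm C4 K ≃ₗ[K] Lm C4 K) →
      ∃ a b, Ex C4 a ∧ Ex C4 b ∧ fm C4 a b = σ ∧ Y4 a b (f * g) :=
    fun a b f g ha hb hab hf hg => ⟨a, b, ha, hb, hab, f, g, hf, hg, rfl⟩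
  by_cases hs : 1 - σ = 0
  · have hσ1 : σ = 1 := (sub_eq_zero.1 hs).symm
    have hy0 := hY (c4 K 0) (c4 K 1) T0 T1 (hC 0) (hC 1) (by rw [cv1, hσ1]) hT0 hT1
    obtain ⟨a, d, a', ha, hd, ha', had, ha'd, hx⟩ := g_SGL 4 C4 K hb4 (c4 K 2) σ (hC 2) hσ0
    obtain ⟨xa, hxa⟩ := hxs a 1 ha
    obtain ⟨xa', hxa'⟩ := hxs a' 1 ha'
    obtain ⟨xd, hxd⟩ := hxs d 1 hd
    have hy1 := hY a' d xa' xd ha' hd ha'd hxa' hxd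
    have hy2 := hY a d xa xd ha hd had hxa hxd
    have e1 : T2 * xa = xa' := by
      apply Subtype.ext
      apply LinearEquiv.ext
      intro v
      have e : ((T2 * xa : EG C4 K) : Lm C4 K ≃ₗ[K] Lm C4 K) v =
          (T2 : Lm C4 K ≃ₗ[K] Lm C4 K) ((xa : Lm C4 K ≃ₗ[K] Lm C4 K) v) := rfl
      rw [e, hT2, hxa, hx, hxa' v]
    exact Z42_pack (fun y : EG C4 K => ∃ a b, Ex C4 a ∧ Ex C4 b ∧ fm C4 a b = σ ∧ Y4 a b y) _ _ _ hy0 hy1 hy2 (Z42_h1 _ _ _ xa xa' xd e1 hzN)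
  · obtain ⟨S, hS⟩ := hxs (c4 K 0) (1 - σ) (hC 0)
    obtain ⟨R, hR⟩ := hxs (c4 K 0) σ (hC 0)
    have hSR : S * R = T0 := by
      have h1 := hadd (c4 K 0) (1 - σ) σ S R (hC 0) hS hR
      rw [sub_add_cancel] at h1
      exact Z42_uniq h1 hT0
    have hy0 := hY (σ • c4 K 0) (c4 K 1) R T1 (hsm _ σ (hC 0) hσ0) (hC 1)
      (by rw [Z42_fm_smul_left, cv1, mul_one]) (hsc _ _ _ (hC 0) hR) hT1
    have hEn : Ex C4 ((-(1 - σ)) • c4 K 0) := hsm _ _ (hC 0) (neg_ne_zero.2 hs)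
    obtain ⟨b, hb, hb2, hb0⟩ := hBX4 K (c4 K 2) ((-(1 - σ)) • c4 K 0) (hC 2) hEn
      (fun κ => cv2 κ (-(1 - σ)) (neg_ne_zero.2 hs)) σ σ hσ0 hσ0
    obtain ⟨xb, hxb⟩ := hxs b 1 hb
    have hy1 := hY (c4 K 2) b T2 xb (hC 2) hb hb2 hT2 hxb
    have hy2 := hY ((-(1 - σ)) • c4 K 0) b S⁻¹ xb hEn hb hb0
      (hsc _ _ _ (hC 0) (hinv _ _ _ (hC 0) hS)) hxb
    exact Z42_pack (fun y : EG C4 K => ∃ a b, Ex C4 a ∧ Ex C4 b ∧ fm C4 a b = σ ∧ Y4 a b y) _ _ _ hy0 hy1 hy2 (Z42_h2 _ _ _ xb S R hSR hzN)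

end Pool.Agent.TRI
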